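import Pool.Agent.Helper34.PU.Goals

set_option autoImplicit false

open Finset Function
open scoped Classical

namespace Pool.Agent.Helper38.PU

open Pool.Agent.Helper34.PU

section basic

variable {T D : ℕ}

lemma mem_blk {J : Finset (Fin T)} {a φ : Pt T D} : φ ∈ blk J a ↔ ∀ t ∈ J, φ t = a t := by
  unfold blk
  simp

lemma self_mem_blk (J : Finset (Fin T)) (φ : Pt T D) : φ ∈ blk J φ := by
  rw [mem_blk]
  intro t _
  rfl

lemma blk_comm {J : Finset (Fin T)} {a φ : Pt T D} : φ ∈ blk J a ↔ a ∈ blk J φ := by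
  rw [mem_blk, mem_blk]
  constructor
  · intro h t ht
    exact (h t ht).symm
  · intro h t ht
    exact (h t ht).symm

lemma blk_eq {J : Finset (Fin T)} {a φ : Pt T D} (h : ∀ t ∈ J, φ t = a t) : blk J φ = blk J a := by
  ext ψ
  rw [mem_blk, mem_blk]
  constructor
  · intro h2 t ht
    rw [h2 t ht, h t ht]
  · intro h2 t ht
    rw [h2 t ht, h t ht]

lemma blk_eq' {J : Finset (Fin T)} {a φ : Pt T D} (h : φ ∈ blk J a) : blk J φ = blk J a :=
  blk_eq (mem_blk.1 h)

lemma card_blk_pos (J : Finset (Fin T)) (φ : Pt T D) : (0 : ℝ) < ((blk J φ).card : ℝ) := by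
  have : 0 < (blk J φ).card := card_pos.2 ⟨φ, self_mem_blk J φ⟩
  exact_mod_cast this

/-- all blocks have the same size -/
lemma card_blk_eq (J : Finset (Fin T)) (φ ψ : Pt T D) : (blk J φ).card = (blk J ψ).card := by
  refine card_bij' (fun χ _ => fun t => if t ∈ J then ψ t else χ t)
    (fun χ _ => fun t => if t ∈ J then φ t else χ t) ?_ ?_ ?_ ?_
  · intro χ _
    rw [mem_blk]
    intro t ht
    simp [ht]
  · intro χ _
    rw [mem_blk]
    intro t ht
    simp [ht]
  · intro χ hχ
    rw [mem_blk] at hχ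
    funext t
    by_cases ht : t ∈ J
    · simp [ht, hχ t ht]
    · simp [ht]
  · intro χ hχ
    rw [mem_blk] at hχ
    funext t
    by_cases ht : t ∈ J
    · simp [ht, hχ t ht]
    · simp [ht]

lemma dep_of_PF {β : ℕ} {J0 K : Finset (Fin T)} {F : Pt T D → ℝ} (h : PF β J0 K F) : Dep K F := by
  obtain ⟨g, _, hg2, hg3⟩ := h
  intro φ ψ hφψ
  rw [hg3, hg3]
  refine prod_congr rfl fun J hJ => ?_
  rw [mem_filter, mem_powerset] at hJ
  exact hg2 J φ ψ fun t ht => hφψ t (hJ.1 ht)

/-- conditional average -/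
noncomputable def cav (I : Finset (Fin T)) (F : Pt T D → ℝ) (φ : Pt T D) : ℝ := avg (blk I φ) F

lemma dep_cav (I : Finset (Fin T)) (F : Pt T D → ℝ) : Dep I (cav I F) := by
  intro φ ψ h
  unfold cav
  rw [blk_eq h]

lemma abs_avg_le {α : Type} (A : Finset α) (f : α → ℝ) (c : ℝ) (hc : 0 ≤ c) (h : ∀ i ∈ A, |f i| ≤ c) :
    |avg A f| ≤ c := by
  unfold avg
  rw [abs_div]
  rcases A.eq_empty_or_nonempty with rfl | hA
  · simp [hc]
  · have hpos : (0 : ℝ) < (A.card : ℝ) := by exact_mod_cast card_pos.2 hA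
    rw [abs_of_pos hpos, div_le_iff₀ hpos]
    refine (abs_sum_le_sum_abs _ _).trans ?_
    calc ∑ i ∈ A, |f i| ≤ ∑ _i ∈ A, c := sum_le_sum h
      _ = c * A.card := by rw [sum_const, nsmul_eq_mul]; ring

lemma abs_cav_le (I : Finset (Fin T)) (F : Pt T D → ℝ) (h : ∀ φ, |F φ| ≤ 1) (φ : Pt T D) :
    |cav I F φ| ≤ 1 := abs_avg_le _ _ 1 zero_le_one fun i _ => h i

/-- averaging against a function of the coordinates in `I` -/
lemma sum_dep_mul (I : Finset (Fin T)) (u F : Pt T D → ℝ) (hu : Dep I u) :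
    ∑ φ, u φ * cav I F φ = ∑ φ, u φ * F φ := by
  unfold cav avg
  have h1 : ∀ φ : Pt T D, u φ * ((∑ ψ ∈ blk I φ, F ψ) / (blk I φ).card) =
      ∑ ψ : Pt T D, if ψ ∈ blk I φ then u φ * F ψ / (blk I φ).card else 0 := by
    intro φ
    rw [← sum_filter, filter_mem_eq_inter, univ_inter, mul_div_assoc', mul_sum, sum_div]
  rw [sum_congr rfl fun φ _ => h1 φ, sum_comm]
  refine sum_congr rfl fun ψ _ => ?_
  have h2 : ∀ φ : Pt T D, (if ψ ∈ blk I φ then u φ * F ψ / (blk I φ).card else 0) =
      if φ ∈ blk I ψ then u ψ * F ψ / (blk I ψ).card else 0 := by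
    intro φ
    by_cases h : ψ ∈ blk I φ
    · rw [if_pos h, if_pos (blk_comm.1 h), card_blk_eq I φ ψ, hu ψ φ (mem_blk.1 h)]
    · rw [if_neg h, if_neg fun h' => h (blk_comm.1 h')]
  rw [sum_congr rfl fun φ _ => h2 φ, ← sum_filter, filter_mem_eq_inter, univ_inter, sum_const,
    nsmul_eq_mul]
  have := card_blk_pos I ψ
  field_simp

/-- independence of disjoint groups of coordinates in a block -/
lemma cav_mul (I A A' : Finset (Fin T)) (hIA' : Disjoint I A') (hAA' : Disjoint A A')
    (F F' : Pt T D → ℝ) (hF : Dep (I ∪ A) F) (hF' : Dep (I ∪ A') F') (φ : Pt T D) :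
    cav I (fun ψ => F ψ * F' ψ) φ = cav I F φ * cav I F' φ := by
  have key : (∑ ψ ∈ blk I φ, F ψ) * (∑ ψ ∈ blk I φ, F' ψ) =
      (blk I φ).card * ∑ ψ ∈ blk I φ, F ψ * F' ψ := by
    rw [sum_mul_sum, ← sum_product']
    set S : Pt T D × Pt T D → Pt T D × Pt T D := fun P =>
      (fun t => if t ∈ A' then P.2 t else P.1 t, fun t => if t ∈ A' then P.1 t else P.2 t) with hS
    have hSS : ∀ P, S (S P) = P := by
      intro P
      rw [hS]
      refine Prod.ext ?_ ?_
      · funext t
        by_cases ht : t ∈ A' <;> simp [ht]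
      · funext t
        by_cases ht : t ∈ A' <;> simp [ht]
    have hSmem : ∀ P ∈ blk I φ ×ˢ blk I φ, S P ∈ blk I φ ×ˢ blk I φ := by
      intro P hP
      rw [mem_product, mem_blk, mem_blk] at hP
      rw [mem_product, mem_blk, mem_blk]
      refine ⟨fun t ht => ?_, fun t ht => ?_⟩
      · have : t ∉ A' := fun h => (disjoint_left.1 hIA') ht h
        simp [hS, this, hP.1 t ht]
      · have : t ∉ A' := fun h => (disjoint_left.1 hIA') ht h
        simp [hS, this, hP.2 t ht]
    have h1 : ∑ P ∈ blk I φ ×ˢ blk I φ, F P.1 * F' P.2 =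
        ∑ P ∈ blk I φ ×ˢ blk I φ, F P.1 * F' P.1 := by
      refine sum_nbij' S S hSmem hSmem (fun P _ => hSS P) (fun P _ => hSS P) ?_
      intro P hP
      rw [mem_product, mem_blk, mem_blk] at hP
      have e1 : F P.1 = F (S P).1 := by
        apply hF
        intro t ht
        rw [mem_union] at ht
        have : t ∉ A' := by
          rcases ht with ht | ht
          · exact fun h => (disjoint_left.1 hIA') ht h
          · exact fun h => (disjoint_left.1 hAA') ht h
        simp [hS, this]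
      have e2 : F' P.2 = F' (S P).1 := by
        apply hF'
        intro t ht
        rw [mem_union] at ht
        by_cases h : t ∈ A'
        · simp [hS, h]
        · have hI : t ∈ I := by
            rcases ht with ht | ht
            · exact ht
            · exact absurd ht h
          simp [hS, h, hP.1 t hI, hP.2 t hI]
      rw [e1, e2]
    rw [h1, sum_product]
    simp only [sum_const, nsmul_eq_mul]
    rw [← mul_sum]
  unfold cav avg
  have hpos := card_blk_pos I φ
  rw [div_mul_div_comm, key]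
  field_simp

end basic

lemma sum_cell_zero {T D N : ℕ} (x : Fin N → Pt T D) (I : Finset (Fin T)) (g : Fin N → ℝ)
    (hg : ∀ a : Pt T D, ∑ i ∈ cell x I a, g i = 0) (u : Pt T D → ℝ) (hu : Dep I u) :
    ∑ i, g i * u (x i) = 0 := by
  rw [← sum_fiberwise univ (fun i : Fin N => (fun t : {t // t ∈ I} => x i t.1)) (fun i => g i * u (x i))]
  refine sum_eq_zero fun b _ => ?_
  rcases (univ.filter (fun i : Fin N => (fun t : {t // t ∈ I} => x i t.1) = b)).eq_empty_or_nonempty
    with h | ⟨i0, hi0⟩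
  · rw [h, sum_empty]
  · rw [mem_filter] at hi0
    have hcell : univ.filter (fun i : Fin N => (fun t : {t // t ∈ I} => x i t.1) = b) =
        cell x I (x i0) := by
      ext i
      unfold cell
      rw [mem_filter, mem_filter]
      constructor
      · rintro ⟨_, h⟩
        refine ⟨mem_univ _, fun t ht => ?_⟩
        have h3 := congrFun (h.trans hi0.2.symm) ⟨t, ht⟩
        exact h3
      · rintro ⟨_, h⟩
        refine ⟨mem_univ _, ?_⟩
        rw [← hi0.2]
        funext t
        exact h t.1 t.2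
    rw [hcell]
    have : ∀ i ∈ cell x I (x i0), g i * u (x i) = g i * u (x i0) := by
      intro i hi
      unfold cell at hi
      rw [mem_filter] at hi
      rw [hu (x i) (x i0) hi.2]
    rw [sum_congr rfl this, ← sum_mul, hg, zero_mul]

theorem dl (h : PFLibStmt) : DLStmt := by
  obtain ⟨lib1, lib2, _, lib4⟩ := h
  intro β k m T D N η x hm hη hN hPR I g hI hg1 hg0 A F hIA hAA hcard hPF
  have hNpos : (0 : ℝ) < N := by exact_mod_cast hN
  have hmpos : (0 : ℝ) < m := by exact_mod_cast hm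
  set φ0 : Pt T D := x ⟨0, hN⟩ with hφ0
  have hF1 : ∀ l φ, |F l φ| ≤ 1 := fun l => lib4 β T D ∅ _ _ (hPF l)
  have hDep : ∀ l, Dep (I ∪ A l) (F l) := fun l => dep_of_PF (hPF l)
  set C : Fin m → Pt T D → ℝ := fun l => cav I (F l) with hC
  have hC1 : ∀ l φ, |C l φ| ≤ 1 := fun l => abs_cav_le I (F l) (hF1 l)
  have hCdep : ∀ l, Dep I (C l) := fun l => dep_cav I (F l)
  have hCPF : ∀ l, PF β ∅ (I ∪ A l) (C l) := fun l =>
    lib1 β T D ∅ (I ∪ A l) I (C l) (empty_subset _) subset_union_left hI (hC1 l) (hCdep l)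
  -- signs
  set v : Fin m → ℝ := fun l => avg univ (fun i => g i * F l (x i)) with hv
  set e : Fin m → ℝ := fun l => if 0 ≤ v l then 1 else -1 with he
  have he1 : ∀ l, |e l| = 1 := by
    intro l
    rw [he]
    simp only
    split_ifs <;> simp
  have hev : ∀ l, |v l| = e l * v l := by
    intro l
    rw [he]
    simp only
    split_ifs with hh
    · rw [abs_of_nonneg hh, one_mul]
    · rw [abs_of_neg (not_le.1 hh)]
      ring
  set G : Fin m → Pt T D → ℝ := fun l φ => e l * (F l φ - C l φ) with hG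
  have hG2 : ∀ l φ, |G l φ| ≤ 2 := by
    intro l φ
    rw [hG]
    simp only
    rw [abs_mul, he1, one_mul]
    calc |F l φ - C l φ| ≤ |F l φ| + |C l φ| := abs_sub _ _
      _ ≤ 2 := by linarith [hF1 l φ, hC1 l φ]
  have hcardN : ((univ : Finset (Fin N)).card : ℝ) = N := by simp
  have hvG : ∀ l, |v l| = (∑ i, g i * G l (x i)) / N := by
    intro l
    rw [hev l, hv]
    simp only
    unfold avg
    rw [hcardN, mul_div_assoc']
    congr 1
    have h0 := sum_cell_zero x I g hg0 (C l) (hCdep l)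
    rw [hG]
    simp only
    have : ∑ i, g i * (e l * (F l (x i) - C l (x i))) =
        e l * ∑ i, g i * F l (x i) - e l * ∑ i, g i * C l (x i) := by
      rw [mul_sum, mul_sum, ← sum_sub_distrib]
      refine sum_congr rfl fun i _ => ?_
      ring
    rw [this, h0]
    ring
  have hsum : ∑ l, |v l| = (∑ i, g i * ∑ l, G l (x i)) / N := by
    rw [sum_congr rfl fun l _ => hvG l, ← sum_div]
    congr 1
    rw [sum_comm]
    refine sum_congr rfl fun i _ => ?_
    rw [mul_sum]
  -- off diagonal terms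
  have huniv : ∀ l l', l ≠ l' → ∑ φ, G l φ * G l' φ = 0 := by
    intro l l' hll
    have hA : ∀ u : Pt T D → ℝ, Dep I u → ∀ f : Pt T D → ℝ, ∑ φ, u φ * cav I f φ = ∑ φ, u φ * f φ :=
      fun u hu f => sum_dep_mul I u f hu
    have s1 : ∑ φ, F l φ * F l' φ = ∑ φ, C l φ * C l' φ := by
      have h1 := hA (fun _ => 1) (fun _ _ _ => rfl) (fun φ => F l φ * F l' φ)
      simp only [one_mul] at h1
      rw [← h1]
      refine sum_congr rfl fun φ _ => ?_
      exact cav_mul I (A l) (A l') (hIA l') (hAA l l' hll) (F l) (F l') (hDep l) (hDep l') φ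
    have s2 : ∑ φ, C l' φ * F l φ = ∑ φ, C l φ * C l' φ := by
      rw [← hA (C l') (hCdep l') (F l)]
      refine sum_congr rfl fun φ _ => ?_
      rw [hC]
      ring
    have s3 : ∑ φ, C l φ * F l' φ = ∑ φ, C l φ * C l' φ := by
      rw [← hA (C l) (hCdep l) (F l')]
    have : ∑ φ, G l φ * G l' φ = e l * e l' * (∑ φ, F l φ * F l' φ - ∑ φ, C l' φ * F l φ -
        ∑ φ, C l φ * F l' φ + ∑ φ, C l φ * C l' φ) := by
      rw [← sum_sub_distrib, ← sum_sub_distrib, ← sum_add_distrib, mul_sum]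
      refine sum_congr rfl fun φ _ => ?_
      rw [hG]
      ring
    rw [this, s1, s2, s3]
    ring
  have hcell : cell x ∅ φ0 = univ := by
    unfold cell
    simp
  have hblk : blk (∅ : Finset (Fin T)) φ0 = univ := by
    unfold blk
    simp
  have hprod : ∀ l l', ∀ P Q : Pt T D → ℝ, PF β ∅ (I ∪ A l) P → PF β ∅ (I ∪ A l') Q →
      |(∑ i, P (x i) * Q (x i)) / N - avg univ (fun φ => P φ * Q φ)| ≤ η := by
    intro l l' P Q hP hQ
    have h1 := lib2 β T D ∅ _ _ P Q hP hQ
    have hK : ((I ∪ A l) ∪ (I ∪ A l')).card ≤ k := by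
      have : (I ∪ A l) ∪ (I ∪ A l') = I ∪ A l ∪ A l' := by
        ext t
        simp only [mem_union]
        tauto
      rw [this]
      exact hcard l l'
    have h2 := hPR ∅ ((I ∪ A l) ∪ (I ∪ A l')) φ0 (fun φ => P φ * Q φ) (empty_subset _)
      (by simp) hK h1
    rw [hcell, hblk] at h2
    have h3 : avg univ (fun i => (fun φ => P φ * Q φ) (x i)) = (∑ i, P (x i) * Q (x i)) / N := by
      unfold avg
      rw [hcardN]
    rw [h3] at h2
    exact h2
  have hoff : ∀ l l', l ≠ l' → (∑ i, G l (x i) * G l' (x i)) / N ≤ 4 * η := by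
    intro l l' hll
    have p1 := hprod l l' (F l) (F l') (hPF l) (hPF l')
    have p2 := hprod l l' (F l) (C l') (hPF l) (hCPF l')
    have p3 := hprod l l' (C l) (F l') (hCPF l) (hPF l')
    have p4 := hprod l l' (C l) (C l') (hCPF l) (hCPF l')
    set a1 := (∑ i, F l (x i) * F l' (x i)) / N
    set a2 := (∑ i, F l (x i) * C l' (x i)) / N
    set a3 := (∑ i, C l (x i) * F l' (x i)) / N
    set a4 := (∑ i, C l (x i) * C l' (x i)) / N
    set b1 := avg univ (fun φ => F l φ * F l' φ)
    set b2 := avg univ (fun φ => F l φ * C l' φ)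
    set b3 := avg univ (fun φ => C l φ * F l' φ)
    set b4 := avg univ (fun φ => C l φ * C l' φ)
    have hx : (∑ i, G l (x i) * G l' (x i)) / N = e l * e l' * (a1 - a2 - a3 + a4) := by
      have : ∑ i, G l (x i) * G l' (x i) = e l * e l' * (∑ i, F l (x i) * F l' (x i) -
          ∑ i, F l (x i) * C l' (x i) - ∑ i, C l (x i) * F l' (x i) +
          ∑ i, C l (x i) * C l' (x i)) := by
        rw [← sum_sub_distrib, ← sum_sub_distrib, ← sum_add_distrib, mul_sum]
        refine sum_congr rfl fun φ _ => ?_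
        rw [hG]
        ring
      rw [this]
      simp only [a1, a2, a3, a4]
      ring
    have hb : e l * e l' * (b1 - b2 - b3 + b4) = 0 := by
      have h0 := huniv l l' hll
      have : ∑ φ, G l φ * G l' φ = e l * e l' * (∑ φ, F l φ * F l' φ - ∑ φ, F l φ * C l' φ -
          ∑ φ, C l φ * F l' φ + ∑ φ, C l φ * C l' φ) := by
        rw [← sum_sub_distrib, ← sum_sub_distrib, ← sum_add_distrib, mul_sum]
        refine sum_congr rfl fun φ _ => ?_
        rw [hG]
        ring
      have hbb : e l * e l' * (b1 - b2 - b3 + b4) = (∑ φ, G l φ * G l' φ) / (univ : Finset (Pt T D)).card := by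
        rw [this]
        simp only [b1, b2, b3, b4, avg]
        ring
      rw [hbb, h0, zero_div]
    have hee : |e l * e l'| = 1 := by rw [abs_mul, he1, he1, one_mul]
    have hfin : |e l * e l' * (a1 - a2 - a3 + a4) - e l * e l' * (b1 - b2 - b3 + b4)| ≤ 4 * η := by
      have : e l * e l' * (a1 - a2 - a3 + a4) - e l * e l' * (b1 - b2 - b3 + b4) =
          e l * e l' * ((a1 - b1) - (a2 - b2) - (a3 - b3) + (a4 - b4)) := by ring
      rw [this, abs_mul, hee, one_mul]
      rw [abs_le] at p1 p2 p3 p4 ⊢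
      constructor <;> linarith [p1.1, p1.2, p2.1, p2.2, p3.1, p3.2, p4.1, p4.2]
    rw [hb, sub_zero] at hfin
    rw [hx]
    exact (le_abs_self _).trans hfin
  have hdiag : ∀ l, (∑ i, G l (x i) * G l (x i)) / N ≤ 4 := by
    intro l
    rw [div_le_iff₀ hNpos]
    calc ∑ i, G l (x i) * G l (x i) ≤ ∑ _i : Fin N, (4 : ℝ) := by
          refine sum_le_sum fun i _ => ?_
          have := hG2 l (x i)
          rw [abs_le] at this
          nlinarith [this.1, this.2]
      _ = 4 * N := by rw [sum_const, nsmul_eq_mul, hcardN]; ring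
  have hsq : (∑ i, (∑ l, G l (x i)) ^ 2) / N ≤ 4 * m + 4 * η * (m : ℝ) ^ 2 := by
    have h1 : (∑ i, (∑ l, G l (x i)) ^ 2) / N = ∑ l, ∑ l', (∑ i, G l (x i) * G l' (x i)) / N := by
      have : ∀ i, (∑ l, G l (x i)) ^ 2 = ∑ l, ∑ l', G l (x i) * G l' (x i) := by
        intro i
        rw [sq, sum_mul_sum]
      rw [sum_congr rfl fun i _ => this i, sum_comm, sum_div]
      refine sum_congr rfl fun l _ => ?_
      rw [sum_comm, sum_div]
    rw [h1]
    have h2 : ∀ l l' : Fin m, (∑ i, G l (x i) * G l' (x i)) / N ≤ (if l = l' then 4 else 0) + 4 * η := by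
      intro l l'
      by_cases hll : l = l'
      · subst hll
        rw [if_pos rfl]
        linarith [hdiag l]
      · rw [if_neg hll, zero_add]
        exact hoff l l' hll
    calc ∑ l, ∑ l', (∑ i, G l (x i) * G l' (x i)) / N
        ≤ ∑ l : Fin m, ∑ l' : Fin m, ((if l = l' then 4 else 0) + 4 * η) :=
          sum_le_sum fun l _ => sum_le_sum fun l' _ => h2 l l'
      _ = 4 * m + 4 * η * (m : ℝ) ^ 2 := by
          simp only [sum_add_distrib, sum_ite_eq, mem_univ, if_true, sum_const, card_univ,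
            Fintype.card_fin, nsmul_eq_mul]
          ring
  -- Cauchy-Schwarz
  have hCS : ((∑ i, g i * ∑ l, G l (x i)) / N) ^ 2 ≤ (∑ i, (∑ l, G l (x i)) ^ 2) / N := by
    have h1 := sum_mul_sq_le_sq_mul_sq univ g (fun i => ∑ l, G l (x i))
    have h2 : ∑ i, g i ^ 2 ≤ N := by
      calc ∑ i, g i ^ 2 ≤ ∑ _i : Fin N, (1 : ℝ) := by
            refine sum_le_sum fun i _ => ?_
            have := hg1 i
            rw [abs_le] at this
            nlinarith [this.1, this.2]
        _ = N := by simp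
    have h3 : 0 ≤ ∑ i, (∑ l, G l (x i)) ^ 2 := sum_nonneg fun i _ => sq_nonneg _
    rw [div_pow, div_le_div_iff₀ (by positivity) hNpos]
    calc (∑ i, g i * ∑ l, G l (x i)) ^ 2 * N ≤ ((∑ i, g i ^ 2) * ∑ i, (∑ l, G l (x i)) ^ 2) * N :=
          mul_le_mul_of_nonneg_right h1 hNpos.le
      _ ≤ (N * ∑ i, (∑ l, G l (x i)) ^ 2) * N := by
          refine mul_le_mul_of_nonneg_right ?_ hNpos.le
          exact mul_le_mul_of_nonneg_right h2 h3
      _ = (∑ i, (∑ l, G l (x i)) ^ 2) * (N : ℝ) ^ 2 := by ring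
  have hfinal : (∑ l, |v l|) ^ 2 ≤ (m * √(4 / m + 4 * η)) ^ 2 := by
    rw [hsum]
    refine hCS.trans (hsq.trans (le_of_eq ?_))
    rw [mul_pow, Real.sq_sqrt (by positivity)]
    field_simp
  have := abs_le_of_sq_le_sq' hfinal (by positivity)
  exact this.2

end Pool.Agent.Helper38.PU
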